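import Pool.Agent.Helper19.Qh.Stmts

set_option autoImplicit false
set_option linter.unusedSectionVars false

/-!
# Module MODE: Fourier modes in the central direction
-/

namespace Pool.Agent.Helper19.Qh

open MeasureTheory Topology Set

section param

variable {X : Type} [NormedAddCommGroup X] [NormedSpace ℝ X] [ProperSpace X] {U : Set X}

theorem mode_pcont {W : Type} [NormedAddCommGroup W] [NormedSpace ℝ W] {F : X → ℝ → W}
    (hF : ContinuousOn (fun q : X × ℝ => F q.1 q.2) (U ×ˢ univ)) :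
    ContinuousOn (fun x => ∫ t in (0 : ℝ)..1, F x t) U := by
  rw [continuousOn_iff_continuous_domRestrict]
  have h1 : Continuous (Function.uncurry fun (x : U) (t : ℝ) => F x t) := by
    have h2 : Continuous (fun q : U × ℝ => ((q.1 : X), q.2)) := by fun_prop
    exact hF.comp_continuous h2 fun q => ⟨q.1.2, mem_univ _⟩
  exact intervalIntegral.continuous_parametric_intervalIntegral_of_continuous' h1 0 1

theorem mode_slice {W : Type} [NormedAddCommGroup W] [NormedSpace ℝ W] {F : X → ℝ → W}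
    (hF : ContinuousOn (fun q : X × ℝ => F q.1 q.2) (U ×ˢ univ)) {x : X} (hx : x ∈ U) :
    Continuous (F x) := by
  have h2 : Continuous (fun t : ℝ => (x, t)) := by fun_prop
  exact hF.comp_continuous h2 fun q => ⟨hx, mem_univ _⟩

theorem mode_pfd {W : Type} [NormedAddCommGroup W] [NormedSpace ℝ W] (hU : IsOpen U)
    {F : X → ℝ → W}
    (hF : ContDiffOn ℝ 1 (fun q : X × ℝ => F q.1 q.2) (U ×ˢ univ)) {x : X} (hx : x ∈ U) (t : ℝ) :
    HasFDerivAt (fun y => F y t)
      ((fderiv ℝ (fun q : X × ℝ => F q.1 q.2) (x, t)).comp (ContinuousLinearMap.inl ℝ X ℝ)) x := by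
  have hO : IsOpen (U ×ˢ (univ : Set ℝ)) := hU.prod isOpen_univ
  have h1 : HasFDerivAt (fun q : X × ℝ => F q.1 q.2)
      (fderiv ℝ (fun q : X × ℝ => F q.1 q.2) (x, t)) (x, t) :=
    ((hF.differentiableOn one_ne_zero).differentiableAt (hO.mem_nhds ⟨hx, mem_univ t⟩)).hasFDerivAt
  have h2 : HasFDerivAt (fun x : X => (x, t)) (ContinuousLinearMap.inl ℝ X ℝ) x :=
    hasFDerivAt_prodMk_left x t
  exact HasFDerivAt.comp (g := fun q : X × ℝ => F q.1 q.2) x h1 h2

theorem mode_pfdc {W : Type} [NormedAddCommGroup W] [NormedSpace ℝ W] (hU : IsOpen U)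
    {F : X → ℝ → W} {k : ℕ}
    (hF : ContDiffOn ℝ (k + 1 : ℕ) (fun q : X × ℝ => F q.1 q.2) (U ×ˢ univ)) :
    ContDiffOn ℝ k (fun q : X × ℝ => (fderiv ℝ (fun q : X × ℝ => F q.1 q.2) q).comp
      (ContinuousLinearMap.inl ℝ X ℝ)) (U ×ˢ univ) := by
  have hO : IsOpen (U ×ˢ (univ : Set ℝ)) := hU.prod isOpen_univ
  have h1 : ContDiffOn ℝ k (fderiv ℝ (fun q : X × ℝ => F q.1 q.2)) (U ×ˢ univ) := by
    have h2 : ContDiffOn ℝ ((k : WithTop ℕ∞) + 1) (fun q : X × ℝ => F q.1 q.2) (U ×ˢ univ) := by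
      exact_mod_cast hF
    exact ((contDiffOn_succ_iff_fderiv_of_isOpen hO).1 h2).2.2
  exact h1.clm_comp contDiffOn_const

theorem mode_pint {W : Type} [NormedAddCommGroup W] [NormedSpace ℝ W] (hU : IsOpen U)
    {F : X → ℝ → W}
    (hF : ContDiffOn ℝ 1 (fun q : X × ℝ => F q.1 q.2) (U ×ˢ univ)) {x : X} (hx : x ∈ U) :
    HasFDerivAt (fun x => ∫ t in (0 : ℝ)..1, F x t)
      (∫ t in (0 : ℝ)..1, (fderiv ℝ (fun q : X × ℝ => F q.1 q.2) (x, t)).comp
        (ContinuousLinearMap.inl ℝ X ℝ)) x := by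
  obtain ⟨r, hr, hball⟩ := Metric.isOpen_iff.1 hU x hx
  have hsub : Metric.closedBall x (r / 2) ⊆ U :=
    (Metric.closedBall_subset_ball (by linarith)).trans hball
  have hK : IsCompact (Metric.closedBall x (r / 2) ×ˢ Icc (0 : ℝ) 1) :=
    (isCompact_closedBall x _).prod isCompact_Icc
  have hF1 : ContDiffOn ℝ ((0 : ℕ) + 1 : ℕ) (fun q : X × ℝ => F q.1 q.2) (U ×ˢ univ) := by
    simpa using hF
  have hF' := (mode_pfdc hU hF1).continuousOn
  obtain ⟨C, hC⟩ := hK.exists_bound_of_continuousOn (hF'.mono (prod_mono hsub (subset_univ _)))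
  refine intervalIntegral.hasFDerivAt_integral_of_dominated_of_fderiv_le
    (F' := fun x t => (fderiv ℝ (fun q : X × ℝ => F q.1 q.2) (x, t)).comp
        (ContinuousLinearMap.inl ℝ X ℝ))
    (bound := fun _ => C) (Metric.closedBall_mem_nhds x (half_pos hr)) ?_ ?_ ?_ ?_ ?_ ?_
  · filter_upwards [hU.mem_nhds hx] with y hy
    exact (mode_slice hF.continuousOn hy).aestronglyMeasurable
  · exact (mode_slice hF.continuousOn hx).intervalIntegrable 0 1
  · exact (mode_slice (F := fun x t => (fderiv ℝ (fun q : X × ℝ => F q.1 q.2) (x, t)).comp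
        (ContinuousLinearMap.inl ℝ X ℝ)) hF' hx).aestronglyMeasurable
  · apply Filter.Eventually.of_forall
    intro t ht y hy
    rw [uIoc_of_le zero_le_one] at ht
    exact hC (y, t) ⟨hy, ht.1.le, ht.2⟩
  · exact intervalIntegrable_const
  · apply Filter.Eventually.of_forall
    intro t ht y hy
    exact mode_pfd hU hF (hsub hy) t

theorem mode_pcd (hU : IsOpen U) (k : ℕ) : ∀ {W : Type} [NormedAddCommGroup W] [NormedSpace ℝ W]
    {F : X → ℝ → W}, ContDiffOn ℝ k (fun q : X × ℝ => F q.1 q.2) (U ×ˢ univ) →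
    ContDiffOn ℝ k (fun x => ∫ t in (0 : ℝ)..1, F x t) U := by
  induction k with
  | zero =>
    intro W _ _ F hF
    rw [Nat.cast_zero, contDiffOn_zero] at hF ⊢
    exact mode_pcont hF
  | succ k ih =>
    intro W _ _ F hF
    have h1 : ContDiffOn ℝ 1 (fun q : X × ℝ => F q.1 q.2) (U ×ˢ univ) :=
      hF.of_le (by exact_mod_cast Nat.le_add_left 1 k)
    have h2 : ∀ x ∈ U, fderiv ℝ (fun x => ∫ t in (0 : ℝ)..1, F x t) x =
        ∫ t in (0 : ℝ)..1, (fderiv ℝ (fun q : X × ℝ => F q.1 q.2) (x, t)).comp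
        (ContinuousLinearMap.inl ℝ X ℝ) := fun x hx => (mode_pint hU h1 hx).fderiv
    have h3 : ContDiffOn ℝ ((k : WithTop ℕ∞) + 1) (fun x => ∫ t in (0 : ℝ)..1, F x t) U := by
      rw [contDiffOn_succ_iff_fderiv_of_isOpen hU]
      refine ⟨fun x hx => (mode_pint hU h1 hx).differentiableAt.differentiableWithinAt, ?_, ?_⟩
      · intro h
        exact absurd h (by simp)
      · refine ContDiffOn.congr ?_ h2
        exact ih (F := fun x t => (fderiv ℝ (fun q : X × ℝ => F q.1 q.2) (x, t)).comp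
          (ContinuousLinearMap.inl ℝ X ℝ)) (mode_pfdc hU hF)
    exact_mod_cast h3

end param

variable {m : ℕ}

/-- the central translate -/
noncomputable def mode_sh (v : Q) (t : ℝ) (p : Pt m) : Pt m := (p.1 + t • v, p.2)

theorem mode_sh_mem {v : Q} (hv : v.re = 0) {t : ℝ} {p : Pt m} (hp : p ∈ SD m) :
    mode_sh v t p ∈ SD m := by
  have : hgt (mode_sh v t p) = hgt p := by
    unfold hgt mode_sh
    simp [hv]
  change 0 < hgt (mode_sh v t p)
  rw [this]
  exact hp

/-- the kernel -/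
noncomputable def mode_e (n : ℤ) (t : ℝ) : ℂ :=
  Complex.exp (-(2 * Real.pi * n * t : ℝ) * Complex.I)

theorem mode_eq (v : Q) (n : ℤ) (φ : Pt m → ℂ) (p : Pt m) :
    mode v n φ p = ∫ t in (0 : ℝ)..1, φ (mode_sh v t p) * mode_e n t := rfl

theorem mode_e_add (n : ℤ) (s t : ℝ) : mode_e n (s + t) = mode_e n s * mode_e n t := by
  unfold mode_e
  rw [← Complex.exp_add]
  congr 1
  push_cast
  ring

theorem mode_e_one (n : ℤ) : mode_e n 1 = 1 := by
  unfold mode_e
  rw [Complex.exp_eq_one_iff]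
  exact ⟨-n, by push_cast; ring⟩

theorem mode_e_cd (n : ℤ) : ContDiff ℝ 2 (mode_e n) := by
  unfold mode_e
  apply ContDiff.cexp
  apply ContDiff.mul _ contDiff_const
  apply ContDiff.neg
  exact Complex.ofRealCLM.contDiff.comp (contDiff_const.mul contDiff_id)

theorem mode_sh_cd (v : Q) : ContDiff ℝ 2 (fun q : Pt m × ℝ => mode_sh v q.2 q.1) := by
  unfold mode_sh
  apply ContDiff.prodMk
  · apply ContDiff.add (contDiff_fst.comp contDiff_fst)
    exact contDiff_snd.smul contDiff_const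
  · exact contDiff_snd.comp contDiff_fst

theorem mode_F_cd {v : Q} (hv : v.re = 0) {n : ℤ} {φ : Pt m → ℂ} (hφ : ContDiffOn ℝ 2 φ (SD m)) :
    ContDiffOn ℝ 2 (fun q : Pt m × ℝ => φ (mode_sh v q.2 q.1) * mode_e n q.2)
      (SD m ×ˢ univ) := by
  apply ContDiffOn.mul
  · exact hφ.comp (mode_sh_cd v).contDiffOn fun q hq => mode_sh_mem hv hq.1
  · exact ((mode_e_cd n).comp contDiff_snd).contDiffOn

theorem mode_fd {v : Q} (hv : v.re = 0) {n : ℤ} {φ : Pt m → ℂ} (hφ : ContDiffOn ℝ 2 φ (SD m))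
    {p : Pt m} (hp : p ∈ SD m) (w : Pt m) :
    fderiv ℝ (mode v n φ) p w =
      ∫ t in (0 : ℝ)..1, fderiv ℝ φ (mode_sh v t p) w * mode_e n t := by
  have hF2 := mode_F_cd hv (n := n) hφ
  have hF : ContDiffOn ℝ 1 (fun q : Pt m × ℝ => φ (mode_sh v q.2 q.1) * mode_e n q.2)
      (SD m ×ˢ univ) := hF2.of_le one_le_two
  have h1 := mode_pint (F := fun p t => φ (mode_sh v t p) * mode_e n t) isOpen_SD hF hp
  have h2 : fderiv ℝ (mode v n φ) p = _ := h1.fderiv
  rw [h2]
  have hF1 : ContDiffOn ℝ ((0 : ℕ) + 1 : ℕ) (fun q : Pt m × ℝ => φ (mode_sh v q.2 q.1) *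
      mode_e n q.2) (SD m ×ˢ univ) := by
    simpa using hF
  have hF' := (mode_pfdc (F := fun p t => φ (mode_sh v t p) * mode_e n t) isOpen_SD
    hF1).continuousOn
  have h3 := mode_slice (F := fun x t => (fderiv ℝ (fun q : Pt m × ℝ => φ (mode_sh v q.2 q.1) *
      mode_e n q.2) (x, t)).comp (ContinuousLinearMap.inl ℝ (Pt m) ℝ)) hF' hp
  rw [ContinuousLinearMap.intervalIntegral_apply (h3.intervalIntegrable 0 1)]
  apply intervalIntegral.integral_congr
  intro t _
  have h4 := mode_pfd (F := fun p t => φ (mode_sh v t p) * mode_e n t) isOpen_SD hF hp t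
  have h5 : HasFDerivAt (fun y : Pt m => mode_sh v t y) (ContinuousLinearMap.id ℝ (Pt m)) p := by
    have : (fun y : Pt m => mode_sh v t y) = fun y => y + (t • v, 0) := by
      funext y
      refine Prod.ext rfl ?_
      simp [mode_sh]
    rw [this]
    exact (hasFDerivAt_id p).add_const _
  have h6 : HasFDerivAt φ (fderiv ℝ φ (mode_sh v t p)) (mode_sh v t p) :=
    ((hφ.differentiableOn two_ne_zero).differentiableAt
      (isOpen_SD.mem_nhds (mode_sh_mem hv hp))).hasFDerivAt
  have h7 := (HasFDerivAt.comp (g := φ) p h6 h5).mul_const (mode_e n t)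
  have h8 := h4.unique h7
  have h9 := congrArg (fun L => L w) h8
  simp only at h9 ⊢
  rw [h9]
  simp [mul_comm]

theorem mode_per {N : Q → E m → Prop} {β : Fin (4 * m) → E m} {γ : Fin 3 → Q} (hN : Cusp N β γ)
    {φ : Pt m → ℂ} (hφ : Per N φ) (j : Fin 3) {p : Pt m} (hp : p ∈ SD m) (t : ℝ) :
    φ (mode_sh (γ j) (t + 1) p) = φ (mode_sh (γ j) t p) := by
  have h1 : N (γ j) 0 := by
    refine (hN.cen _).2 ⟨Pi.single j 1, ?_⟩
    rw [Finset.sum_eq_single j]
    · simp
    · intro i _ hij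
      rw [Pi.single_eq_of_ne hij]
      simp
    · intro h
      exact absurd (Finset.mem_univ j) h
  have h2 := hφ _ _ h1 _ (mode_sh_mem (hN.im j) (t := t) hp)
  rw [← h2]
  congr 1
  rw [act_T]
  refine Prod.ext ?_ ?_
  · have h3 : hin p.2 (0 : E m) = 0 := by
      have := hin_smul_right 0 p.2 (0 : E m)
      simpa using this
    simp only [mode_sh, h3, add_smul, one_smul, sub_zero]
    abel
  · simp [mode_sh]

theorem mode_trans {N : Q → E m → Prop} {β : Fin (4 * m) → E m} {γ : Fin 3 → Q} (hN : Cusp N β γ)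
    {φ : Pt m → ℂ} (hφ : Per N φ) (j : Fin 3) {p : Pt m} (hp : p ∈ SD m) (n : ℤ) (s : ℝ) :
    mode (γ j) n φ (mode_sh (γ j) s p) = mode_e n (-s) * mode (γ j) n φ p := by
  have h1 : ∀ t, φ (mode_sh (γ j) t (mode_sh (γ j) s p)) * mode_e n t =
      mode_e n (-s) * (φ (mode_sh (γ j) (t + s) p) * mode_e n (t + s)) := by
    intro t
    have h2 : mode_sh (γ j) t (mode_sh (γ j) s p) = mode_sh (γ j) (t + s) p := by
      refine Prod.ext ?_ rfl
      simp only [mode_sh, add_smul]
      abel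
    have h3 : mode_e n t = mode_e n (-s) * mode_e n (t + s) := by
      rw [← mode_e_add]
      congr 1
      ring
    rw [h2, h3]
    ring
  rw [mode_eq, mode_eq]
  simp only [h1]
  rw [intervalIntegral.integral_const_mul]
  congr 1
  have h2 := intervalIntegral.integral_comp_add_right
    (fun t => φ (mode_sh (γ j) t p) * mode_e n t) s (a := 0) (b := 1)
  rw [h2]
  have h3 : Function.Periodic (fun t => φ (mode_sh (γ j) t p) * mode_e n t) 1 := by
    intro t
    simp only
    rw [mode_e_add, mode_e_one, mul_one, mode_per hN hφ j hp]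
  have h4 := h3.intervalIntegral_add_eq (0 + s) 0
  rw [zero_add] at h4 ⊢
  rw [add_comm 1 s, h4]
  norm_num

theorem st_MODE : ST_MODE := by
  intro m N β γ hN φ hφ hper j n
  have hj : (γ j).re = 0 := hN.im j
  have hcd : ContDiffOn ℝ 2 (mode (γ j) n φ) (SD m) :=
    mode_pcd (F := fun p t => φ (mode_sh (γ j) t p) * mode_e n t) isOpen_SD 2 (mode_F_cd hj hφ)
  refine ⟨hcd, ?_, ?_⟩
  · intro a b hab p hp
    rw [mode_eq, mode_eq]
    apply intervalIntegral.integral_congr
    intro t _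
    have h1 := hper a b hab _ (mode_sh_mem hj (t := t) hp)
    have h2 : mode_sh (γ j) t (act (T a b) p) = act (T a b) (mode_sh (γ j) t p) := by
      rw [act_T, act_T]
      refine Prod.ext ?_ rfl
      simp only [mode_sh]
      abel
    simp only
    rw [h2, h1]
  · intro p hp
    refine ⟨?_, ?_, ?_⟩
    · unfold pd
      have h1 : HasFDerivAt (mode (γ j) n φ) (fderiv ℝ (mode (γ j) n φ) p) p :=
        ((hcd.differentiableOn two_ne_zero).differentiableAt
          (isOpen_SD.mem_nhds hp)).hasFDerivAt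
      have h2 : HasDerivAt (fun s : ℝ => p + s • ((γ j, 0) : Pt m)) (γ j, 0) 0 := by
        have := ((hasDerivAt_id (0 : ℝ)).smul_const ((γ j, 0) : Pt m)).const_add p
        simpa using this
      have h1' : HasFDerivAt (mode (γ j) n φ) (fderiv ℝ (mode (γ j) n φ) p)
          (p + (0 : ℝ) • ((γ j, 0) : Pt m)) := by simpa using h1
      have h3 := h1'.comp_hasDerivAt (0 : ℝ) h2
      have h4 : (mode (γ j) n φ ∘ fun s : ℝ => p + s • ((γ j, 0) : Pt m)) =
          fun s : ℝ => mode_e n (-s) * mode (γ j) n φ p := by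
        funext s
        simp only [Function.comp]
        rw [← mode_trans hN hper j hp]
        congr 1
        refine Prod.ext ?_ ?_
        · simp only [mode_sh, Prod.fst_add, Prod.smul_fst]
        · simp [mode_sh]
      rw [h4] at h3
      have h5 : HasDerivAt (fun s : ℝ => mode_e n (-s))
          (((2 * Real.pi * n : ℝ) : ℂ) * Complex.I) 0 := by
        have e1 : (fun s : ℝ => mode_e n (-s)) =
            fun s : ℝ => Complex.exp ((((2 * Real.pi * n : ℝ) : ℂ) * Complex.I) * s) := by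
          funext s
          unfold mode_e
          congr 1
          push_cast
          ring
        rw [e1]
        have e2 : HasDerivAt (fun s : ℝ => ((((2 * Real.pi * n : ℝ) : ℂ) * Complex.I) * s))
            (((2 * Real.pi * n : ℝ) : ℂ) * Complex.I) 0 := by
          have e3 : HasDerivAt (fun t : ℝ => (t : ℂ)) 1 0 := Complex.ofRealCLM.hasDerivAt
          have := e3.const_mul (((2 * Real.pi * n : ℝ) : ℂ) * Complex.I)
          rwa [mul_one] at this
        have e4 := e2.cexp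
        simpa using e4
      have h6 := h5.mul_const (mode (γ j) n φ p)
      exact h3.unique h6
    · intro v
      unfold pd
      rw [mode_fd hj hφ hp]
      rfl
    · intro e
      unfold XX
      rw [mode_fd hj hφ hp]
      rfl

end Pool.Agent.Helper19.Qh
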